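import Mathlib

/-! Boundary values of the singular inner function `exp ((z + 1) / (z - 1))` and its Fourier
coefficients. -/

set_option autoImplicit false
open MeasureTheory Filter Topology Complex AddCircle
open scoped ComplexConjugate

namespace Pool.Agent.R300.Toep

/-- the singular inner function -/
noncomputable def S (z : ℂ) : ℂ := exp ((z + 1) / (z - 1))

lemma re_quot (z : ℂ) : ((z + 1) / (z - 1)).re = (‖z‖ ^ 2 - 1) / ‖z - 1‖ ^ 2 := by
  rw [Complex.div_re, ← Complex.normSq_eq_norm_sq, ← Complex.normSq_eq_norm_sq]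
  simp only [add_re, one_re, sub_re, add_im, one_im, sub_im, Complex.normSq_apply]
  ring

lemma norm_S (z : ℂ) : ‖S z‖ = Real.exp ((‖z‖ ^ 2 - 1) / ‖z - 1‖ ^ 2) := by
  rw [S, Complex.norm_exp, re_quot]

lemma norm_S_le {z : ℂ} (hz : ‖z‖ ≤ 1) : ‖S z‖ ≤ 1 := by
  rw [norm_S, Real.exp_le_one_iff]
  apply div_nonpos_of_nonpos_of_nonneg _ (by positivity)
  nlinarith [norm_nonneg z]

lemma norm_S_eq {z : ℂ} (hz : ‖z‖ = 1) : ‖S z‖ = 1 := by
  rw [norm_S, hz]; norm_num

lemma S_conj (z : ℂ) : S (conj z) = conj (S z) := by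
  rw [S, S, ← Complex.exp_conj]
  simp

lemma diff_S {z : ℂ} (hz : z ≠ 1) : DifferentiableAt ℂ S z := by
  unfold S
  have : z - 1 ≠ 0 := sub_ne_zero.2 hz
  fun_prop (disch := assumption)

lemma diffOn_S : DifferentiableOn ℂ S (Metric.ball 0 1) := by
  intro z hz
  apply (diff_S _).differentiableWithinAt
  rintro rfl
  simp at hz

/-- Taylor coefficients -/
noncomputable def a (n : ℕ) : ℂ := ((n.factorial : ℂ)⁻¹) * iteratedDeriv n S 0

lemma hasSum_S {z : ℂ} (hz : ‖z‖ < 1) : HasSum (fun n => a n * z ^ n) (S z) := by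
  have := Complex.hasSum_taylorSeries_on_ball (c := 0) (r := 1) (z := z) diffOn_S (by simpa using hz)
  have h2 : (fun n => a n * z ^ n) = fun n : ℕ => ((n.factorial : ℂ)⁻¹) • (z - 0) ^ n • iteratedDeriv n S 0 := by
    funext n
    simp only [a, smul_eq_mul, sub_zero]
    ring
  rw [h2]
  exact this

lemma summable_a {r : ℝ} (h0 : 0 ≤ r) (h1 : r < 1) : Summable (fun n => ‖a n‖ * r ^ n) := by
  have h2 : Summable (fun n => a n * (r : ℂ) ^ n) :=
    (hasSum_S (z := (r : ℂ)) (by simpa [abs_of_nonneg h0] using h1)).summable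
  have := h2.norm
  simpa [abs_of_nonneg h0] using this

/-- the circle `ℝ / ℤ` -/
abbrev 𝕋 := AddCircle (1 : ℝ)

/-- boundary function -/
noncomputable def u (t : 𝕋) : ℂ := S (fourier 1 t)

lemma norm_fourier (n : ℤ) (t : 𝕋) : ‖fourier n t‖ = 1 := by
  rw [fourier_apply]; exact Circle.norm_coe _

lemma norm_u (t : 𝕋) : ‖u t‖ = 1 := norm_S_eq (norm_fourier 1 t)

lemma meas_u : Measurable u := by
  have h1 : Measurable (fun z : ℂ => exp ((z + 1) / (z - 1))) := by fun_prop
  exact h1.comp (fourier (T := (1:ℝ)) 1).continuous.measurable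

lemma fourier_pow (n : ℕ) (t : 𝕋) : (fourier 1 t) ^ n = fourier (n : ℤ) t := by
  induction n with
  | zero => simp
  | succ n ih =>
    rw [pow_succ, ih, ← fourier_add]
    push_cast
    rfl

/-- The Fourier coefficients of `t ↦ S (r e_1(t))`. -/
lemma coeff_r {r : ℝ} (h0 : 0 ≤ r) (h1 : r < 1) (m : ℤ) :
    fourierCoeff (fun t : 𝕋 => S (r * fourier 1 t)) m
      = if 0 ≤ m then a m.toNat * (r : ℂ) ^ m.toNat else 0 := by
  have hs : ∀ t : 𝕋, HasSum (fun n : ℕ => fourier (-m) t • ((a n * (r:ℂ) ^ n) * fourier (n : ℤ) t))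
      (fourier (-m) t • S (r * fourier 1 t)) := by
    intro t
    have hn : ‖(r : ℂ) * fourier 1 t‖ < 1 := by
      rw [norm_mul, norm_fourier, mul_one]; simpa [abs_of_nonneg h0] using h1
    have := (hasSum_S hn).const_smul (fourier (-m) t)
    convert this using 3 with n
    rw [mul_pow, fourier_pow]; ring
  have hsum := hasSum_integral_of_summable_integral_norm
    (μ := haarAddCircle (T := (1:ℝ)))
    (F := fun (n : ℕ) (t : 𝕋) => fourier (-m) t • ((a n * (r:ℂ) ^ n) * fourier (n : ℤ) t))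
    (fun n => by
      apply Continuous.integrable_of_hasCompactSupport
      · fun_prop
      · exact HasCompactSupport.of_compactSpace _)
    (by
      have : ∀ n : ℕ, ∫ t : 𝕋, ‖fourier (-m) t • ((a n * (r:ℂ) ^ n) * fourier (n : ℤ) t)‖
          ∂haarAddCircle = ‖a n‖ * r ^ n := by
        intro n
        have : ∀ t : 𝕋, ‖fourier (-m) t • ((a n * (r:ℂ) ^ n) * fourier (n : ℤ) t)‖ = ‖a n‖ * r ^ n := by
          intro t
          rw [norm_smul, norm_mul, norm_mul, norm_fourier, norm_fourier, norm_pow]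
          simp [abs_of_nonneg h0]
        simp_rw [this]
        simp
      simp_rw [this]
      exact summable_a h0 h1)
  have h2 : fourierCoeff (fun t : 𝕋 => S (r * fourier 1 t)) m
      = ∫ t : 𝕋, ∑' n : ℕ, fourier (-m) t • ((a n * (r:ℂ) ^ n) * fourier (n : ℤ) t) ∂haarAddCircle := by
    rw [fourierCoeff]
    congr 1
    ext t
    exact (hs t).tsum_eq.symm
  rw [h2, ← hsum.tsum_eq]
  have h3 : ∀ n : ℕ, ∫ t : 𝕋, fourier (-m) t • ((a n * (r:ℂ) ^ n) * fourier (n : ℤ) t) ∂haarAddCircle
      = if m = n then a n * (r:ℂ) ^ n else 0 := by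
    intro n
    have h4 : ∀ t : 𝕋, fourier (-m) t • ((a n * (r:ℂ) ^ n) * fourier (n : ℤ) t)
        = (a n * (r:ℂ) ^ n) * fourier (n - m) t := by
      intro t
      rw [smul_eq_mul, sub_eq_add_neg, fourier_add]; ring
    simp_rw [h4]
    rw [integral_const_mul]
    have h5 := fourierCoeff_eq_intervalIntegral (T := (1:ℝ)) (fun t : 𝕋 => (1:ℂ)) (m - n) 0
    have h6 : ∫ t : 𝕋, fourier ((n : ℤ) - m) t ∂haarAddCircle = if m = n then 1 else 0 := by
      split_ifs with h
      · subst h; simp
      · have hne : (n : ℤ) - m ≠ 0 := fun h' => h (by omega)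
        exact integral_eq_zero_of_add_right_eq_neg (fourier_add_half_inv_index hne one_pos)
    rw [h6]
    split_ifs <;> simp
  simp_rw [h3]
  split_ifs with hm
  · rw [tsum_eq_single m.toNat]
    · rw [if_pos (Int.toNat_of_nonneg hm).symm]
    · intro n hn
      rw [if_neg]
      intro h
      apply hn
      rw [h]; simp
  · have : ∀ n : ℕ, (if m = n then a n * (r:ℂ) ^ n else 0) = 0 := by
      intro n
      rw [if_neg]
      intro h; apply hm; rw [h]; positivity
    simp_rw [this]
    simp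

lemma ae_ne : ∀ᵐ t : 𝕋 ∂haarAddCircle, fourier 1 t ≠ 1 := by
  have h0 : ∀ᵐ t : 𝕋 ∂haarAddCircle, t ≠ 0 := by
    have hv : (volume : Measure 𝕋) = haarAddCircle := by
      rw [volume_eq_smul_haarAddCircle]; simp
    have hn : (haarAddCircle (T := (1:ℝ))) {0} = 0 := by
      rw [← hv]
      have h1 : ∀ n : ℕ, (volume : Measure 𝕋) {0} ≤ ENNReal.ofReal (2 * (1 / ((n:ℝ) + 1))) := by
        intro n
        calc (volume : Measure 𝕋) {0} ≤ volume (Metric.closedBall (0 : 𝕋) (1 / ((n:ℝ) + 1))) :=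
              measure_mono (by
                intro x hx
                rw [Set.mem_singleton_iff] at hx
                subst hx
                exact Metric.mem_closedBall_self (by positivity))
          _ = ENNReal.ofReal (min 1 (2 * (1 / ((n:ℝ) + 1)))) := AddCircle.volume_closedBall (1:ℝ) _
          _ ≤ _ := ENNReal.ofReal_le_ofReal (min_le_right _ _)
      have h2 : Tendsto (fun n : ℕ => ENNReal.ofReal (2 * (1 / ((n:ℝ) + 1)))) atTop (𝓝 0) := by
        have := (tendsto_one_div_add_atTop_nhds_zero_nat (𝕜 := ℝ)).const_mul 2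
        rw [mul_zero] at this
        simpa using ENNReal.tendsto_ofReal this
      exact le_antisymm (ge_of_tendsto' h2 h1) bot_le
    exact measure_eq_zero_iff_ae_notMem.1 hn
  filter_upwards [h0] with t ht h
  apply ht
  rw [fourier_one] at h
  have h1 : toCircle t = toCircle (0 : 𝕋) := by
    rw [toCircle_zero]
    exact Circle.ext (by simpa using h)
  exact injective_toCircle one_ne_zero h1

lemma coeff_u (m : ℤ) : fourierCoeff u m = if 0 ≤ m then a m.toNat else 0 := by
  -- let `r → 1`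
  have h1 : Tendsto (fun n : ℕ => fourierCoeff (fun t : 𝕋 => S (((1 - 1 / ((n:ℝ) + 1) : ℝ) : ℂ) * fourier 1 t)) m)
      atTop (𝓝 (fourierCoeff u m)) := by
    unfold fourierCoeff
    apply tendsto_integral_of_dominated_convergence (fun _ => (1:ℝ))
    · intro n
      have hm1 : Measurable (fun z : ℂ => S ((((1 - 1 / ((n:ℝ) + 1) : ℝ) : ℂ)) * z)) := by
        unfold S; fun_prop
      have hm2 := hm1.comp (fourier (T := (1:ℝ)) 1).continuous.measurable
      exact (((fourier (T := (1:ℝ)) (-m)).continuous.measurable).smul hm2).aestronglyMeasurable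
    · exact integrable_const _
    · intro n
      apply Eventually.of_forall
      intro t
      rw [norm_smul, norm_fourier, one_mul]
      apply norm_S_le
      rw [norm_mul, norm_fourier, mul_one, Complex.norm_real]
      have hn : (0:ℝ) < (n:ℝ) + 1 := by positivity
      have : 1 / ((n:ℝ) + 1) ≤ 1 := by
        rw [div_le_one hn]; linarith [Nat.cast_nonneg (α := ℝ) n]
      have h3 : 0 < 1 / ((n:ℝ) + 1) := by positivity
      rw [Real.norm_eq_abs, abs_of_nonneg (by linarith)]
      linarith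
    · filter_upwards [ae_ne] with t ht
      apply Tendsto.const_smul
      have hc : ContinuousAt S (fourier 1 t) := (diff_S ht).continuousAt
      have h4 : Tendsto (fun n : ℕ => (((1 - 1 / ((n:ℝ) + 1) : ℝ) : ℂ)) * fourier 1 t) atTop
          (𝓝 (((1 - 0 : ℝ) : ℂ) * fourier 1 t)) := by
        apply Tendsto.mul_const
        exact (Complex.continuous_ofReal.tendsto _).comp
          (tendsto_one_div_add_atTop_nhds_zero_nat.const_sub 1)
      have h5 : ((1 - 0 : ℝ) : ℂ) * fourier 1 t = fourier 1 t := by simp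
      rw [h5] at h4
      exact hc.tendsto.comp h4
  have h2 : Tendsto (fun n : ℕ => fourierCoeff (fun t : 𝕋 => S (((1 - 1 / ((n:ℝ) + 1) : ℝ) : ℂ) * fourier 1 t)) m)
      atTop (𝓝 (if 0 ≤ m then a m.toNat else 0)) := by
    have h3 : ∀ n : ℕ, fourierCoeff (fun t : 𝕋 => S (((1 - 1 / ((n:ℝ) + 1) : ℝ) : ℂ) * fourier 1 t)) m
        = if 0 ≤ m then a m.toNat * (((1 - 1 / ((n:ℝ) + 1) : ℝ) : ℂ)) ^ m.toNat else 0 := by
      intro n
      have hn : (0:ℝ) < (n:ℝ) + 1 := by positivity
      have h4 : 1 / ((n:ℝ) + 1) ≤ 1 := by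
        rw [div_le_one hn]; linarith [Nat.cast_nonneg (α := ℝ) n]
      have h5 : 0 < 1 / ((n:ℝ) + 1) := by positivity
      exact coeff_r (by linarith) (by linarith) m
    simp_rw [h3]
    split_ifs
    · have h6 : Tendsto (fun n : ℕ => (((1 - 1 / ((n:ℝ) + 1) : ℝ) : ℂ))) atTop (𝓝 (((1 - 0 : ℝ) : ℂ))) :=
        (Complex.continuous_ofReal.tendsto _).comp
          (tendsto_one_div_add_atTop_nhds_zero_nat.const_sub 1)
      have h7 := (h6.pow m.toNat).const_mul (a m.toNat)
      simpa using h7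
    · exact tendsto_const_nhds
  exact tendsto_nhds_unique h1 h2

lemma coeff_u_neg {m : ℤ} (hm : m < 0) : fourierCoeff u m = 0 := by
  rw [coeff_u, if_neg (by omega)]

lemma coeff_u_nat (n : ℕ) : fourierCoeff u (n : ℤ) = a n := by
  rw [coeff_u, if_pos (by positivity)]; simp

lemma u_neg (t : 𝕋) : u (-t) = conj (u t) := by
  rw [u, u, ← S_conj]
  congr 1
  rw [fourier_apply, fourier_apply]
  rw [one_smul, one_smul, AddCircle.toCircle_neg]
  exact Circle.coe_inv_eq_conj _

lemma coeff_u_conj (m : ℤ) : conj (fourierCoeff u m) = fourierCoeff u m := by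
  unfold fourierCoeff
  rw [← integral_conj]
  rw [← integral_neg_eq_self (μ := haarAddCircle (T := (1:ℝ)))]
  congr 1
  ext t
  rw [smul_eq_mul, smul_eq_mul, map_mul, ← u_neg, neg_neg, ← fourier_neg]
  congr 1
  rw [fourier_apply, fourier_apply]
  simp

end Pool.Agent.R300.Toep
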