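import Pool.Agent.R300.ToepA

/-! The Toeplitz operator with the singular inner symbol, sections and flips. -/

set_option autoImplicit false
open MeasureTheory Filter Topology Complex AddCircle
open scoped ComplexConjugate InnerProductSpace

namespace Pool.Agent.R300.Toep

open ContinuousLinearMap (adjoint)

noncomputable abbrev H := lp (fun _ : ℕ => ℂ) 2
noncomputable abbrev L2 := Lp ℂ 2 (haarAddCircle (T := (1:ℝ)))

noncomputable def δ (k : ℕ) : H := lp.single 2 k (1:ℂ)

lemma δ_apply (k j : ℕ) : (δ k) j = if j = k then 1 else 0 := by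
  rw [δ, lp.single_apply]
  split_ifs with h
  · subst h; simp
  · simp [h]

lemma inner_δ (k : ℕ) (x : H) : ⟪δ k, x⟫_ℂ = x k := by
  rw [δ, lp.inner_single_left]; simp

lemma ext_H {x y : H} (h : ∀ j, x j = y j) : x = y := lp.ext (funext h)

lemma op_ext {F : Type*} [NormedAddCommGroup F] [NormedSpace ℂ F] {A B : H →L[ℂ] F}
    (h : ∀ k, A (δ k) = B (δ k)) : A = B := by
  apply lp.ext_continuousLinearMap (by simp)
  intro i
  ext
  have := h i
  rw [δ] at this
  simpa using this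

lemma nsq (x : H) : HasSum (fun j => ‖x j‖ ^ 2) (‖x‖ ^ 2) := by
  have h := (lp.hasSum_inner (𝕜 := ℂ) x x)
  have h2 := Complex.hasSum_re h
  have h3 : (⟪x, x⟫_ℂ).re = ‖x‖ ^ 2 := by
    have := inner_self_eq_norm_sq (𝕜 := ℂ) x
    simpa using this
  rw [h3] at h2
  convert h2 using 1
  ext j
  have := inner_self_eq_norm_sq (𝕜 := ℂ) (x j)
  simpa using this.symm

lemma orthon : Orthonormal ℂ (fun k : ℕ => fourierLp (T := (1:ℝ)) 2 (k : ℤ)) :=
  orthonormal_fourier.comp _ Nat.cast_injective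

noncomputable def J : H →ₗᵢ[ℂ] L2 := (orthon).orthogonalFamily.linearIsometry

lemma J_δ (k : ℕ) : J (δ k) = fourierLp 2 (k:ℤ) := by
  rw [J, δ, OrthogonalFamily.linearIsometry_apply_single]
  simp

lemma memu (f : L2) : MemLp (fun t => u t * f t) 2 (haarAddCircle (T := (1:ℝ))) := by
  refine (Lp.memLp f).of_le (meas_u.aestronglyMeasurable.mul (Lp.aestronglyMeasurable f)) ?_
  exact Eventually.of_forall fun t => by rw [norm_mul, norm_u, one_mul]

noncomputable def Mu : L2 →ₗᵢ[ℂ] L2 where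
  toFun f := (memu f).toLp
  map_add' f g := by
    ext1
    filter_upwards [(memu (f + g)).coeFn_toLp, (memu f).coeFn_toLp, (memu g).coeFn_toLp,
      Lp.coeFn_add f g, Lp.coeFn_add (memu f).toLp (memu g).toLp] with t h1 h2 h3 h4 h5
    rw [h1, h5, Pi.add_apply, h2, h3, h4, Pi.add_apply, mul_add]
  map_smul' c f := by
    ext1
    filter_upwards [(memu (c • f)).coeFn_toLp, (memu f).coeFn_toLp,
      Lp.coeFn_smul c f, Lp.coeFn_smul c (memu f).toLp] with t h1 h2 h4 h5
    rw [h1, RingHom.id_apply, h5, Pi.smul_apply, h2, h4, Pi.smul_apply, smul_eq_mul, smul_eq_mul]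
    ring
  norm_map' f := by
    show ‖(memu f).toLp‖ = ‖f‖
    rw [Lp.norm_toLp, Lp.norm_def]
    congr 1
    apply eLpNorm_congr_norm_ae
    exact Eventually.of_forall fun t => by rw [norm_mul, norm_u, one_mul]

lemma Mu_apply (f : L2) : ∀ᵐ t ∂(haarAddCircle (T := (1:ℝ))), Mu f t = u t * f t :=
  (memu f).coeFn_toLp

lemma inner_Mu (m k : ℤ) : ⟪fourierLp (T := (1:ℝ)) 2 m, Mu (fourierLp 2 k)⟫_ℂ = fourierCoeff u (m - k) := by
  rw [L2.inner_def, fourierCoeff]
  apply integral_congr_ae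
  filter_upwards [coeFn_fourierLp (T := (1:ℝ)) 2 m, coeFn_fourierLp (T := (1:ℝ)) 2 k,
    Mu_apply (fourierLp 2 k)] with t h1 h2 h3
  rw [h1, h3, h2]
  simp only [RCLike.inner_apply, smul_eq_mul]
  rw [neg_sub, sub_eq_add_neg, fourier_add, fourier_neg]
  ring

noncomputable def T : H →L[ℂ] H :=
  (adjoint J.toContinuousLinearMap) ∘L (Mu.toContinuousLinearMap ∘L J.toContinuousLinearMap)

lemma T_δ (j k : ℕ) : (T (δ k)) j = fourierCoeff u ((j : ℤ) - (k : ℤ)) := by
  rw [← inner_δ, T, ContinuousLinearMap.comp_apply, ContinuousLinearMap.adjoint_inner_right]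
  simp only [ContinuousLinearMap.comp_apply, LinearIsometry.coe_toContinuousLinearMap]
  rw [J_δ, J_δ, inner_Mu]

lemma adj_entry (A : H →L[ℂ] H) (j k : ℕ) : (adjoint A (δ k)) j = conj ((A (δ j)) k) := by
  rw [← inner_δ, ContinuousLinearMap.adjoint_inner_right, ← inner_δ k, inner_conj_symm]

lemma Tadj_δ (j k : ℕ) : (adjoint T (δ k)) j = fourierCoeff u ((k : ℤ) - (j : ℤ)) := by
  rw [adj_entry, T_δ, coeff_u_conj]

lemma inner_neg_J {m : ℤ} (hm : m < 0) (y : H) : ⟪fourierLp (T := (1:ℝ)) 2 m, J y⟫_ℂ = 0 := by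
  have : (innerSL ℂ (fourierLp (T := (1:ℝ)) 2 m)) ∘L J.toContinuousLinearMap = 0 := by
    apply op_ext
    intro k
    simp only [ContinuousLinearMap.comp_apply, LinearIsometry.coe_toContinuousLinearMap,
      innerSL_apply_apply, zero_apply]
    rw [J_δ]
    exact orthonormal_fourier.2 (by omega)
  have h := congrArg (fun A : H →L[ℂ] ℂ => A y) this
  simpa using h

lemma inner_neg_MuJ {m : ℤ} (hm : m < 0) (y : H) :
    ⟪fourierLp (T := (1:ℝ)) 2 m, Mu (J y)⟫_ℂ = 0 := by
  have : (innerSL ℂ (fourierLp (T := (1:ℝ)) 2 m)) ∘L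
      (Mu.toContinuousLinearMap ∘L J.toContinuousLinearMap) = 0 := by
    apply op_ext
    intro k
    simp only [ContinuousLinearMap.comp_apply, LinearIsometry.coe_toContinuousLinearMap,
      innerSL_apply_apply, zero_apply]
    rw [J_δ, inner_Mu, coeff_u_neg (by omega)]
  have h := congrArg (fun A : H →L[ℂ] ℂ => A y) this
  simpa using h

lemma JJ (x : H) : J (adjoint J.toContinuousLinearMap (Mu (J x))) = Mu (J x) := by
  set w := Mu (J x) with hw
  rw [← sub_eq_zero]
  apply (fourierBasis (T := (1:ℝ))).repr.injective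
  rw [map_zero]
  ext m
  rw [HilbertBasis.repr_apply_apply, coe_fourierBasis, inner_sub_right]
  by_cases hm : m < 0
  · rw [inner_neg_J hm, hw, inner_neg_MuJ hm]; simp
  · obtain ⟨k, rfl⟩ := Int.eq_ofNat_of_zero_le (not_lt.1 hm)
    have h1 : fourierLp (T := (1:ℝ)) 2 ((k : ℕ) : ℤ) = J (δ k) := (J_δ k).symm
    rw [h1, J.inner_map_map, ContinuousLinearMap.adjoint_inner_right]
    simp

lemma T_inner (x y : H) : ⟪T x, T y⟫_ℂ = ⟪x, y⟫_ℂ := by
  have h1 : ∀ z : H, T z = adjoint J.toContinuousLinearMap (Mu (J z)) := fun z => rfl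
  rw [h1, h1, ContinuousLinearMap.adjoint_inner_left]
  simp only [LinearIsometry.coe_toContinuousLinearMap]
  rw [JJ, Mu.inner_map_map, J.inner_map_map]

lemma TT : adjoint T ∘L T = ContinuousLinearMap.id ℂ H := by
  ext1 x
  apply ext_inner_left ℂ
  intro y
  rw [ContinuousLinearMap.comp_apply, ContinuousLinearMap.adjoint_inner_right, T_inner]
  simp

lemma norm_T (x : H) : ‖T x‖ = ‖x‖ := by
  have h := T_inner x x
  rw [inner_self_eq_norm_sq_to_K, inner_self_eq_norm_sq_to_K] at h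
  have h2 : ‖T x‖ ^ 2 = ‖x‖ ^ 2 := by exact_mod_cast h
  nlinarith [norm_nonneg (T x), norm_nonneg x]

end Pool.Agent.R300.Toep
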