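import Pool.Agent.R300.ToepB

/-! Finite sections: projections `P n`, flips `W n`, and the lower bound. -/

set_option autoImplicit false
open MeasureTheory Filter Topology Complex AddCircle
open scoped ComplexConjugate InnerProductSpace

namespace Pool.Agent.R300.Toep

open ContinuousLinearMap (adjoint)

noncomputable def E (i j : ℕ) : H →L[ℂ] H := (innerSL ℂ (δ j)).smulRight (δ i)

lemma E_apply (i j : ℕ) (x : H) (l : ℕ) : (E i j x) l = if l = i then x j else 0 := by
  rw [E, ContinuousLinearMap.smulRight_apply, innerSL_apply_apply, inner_δ, lp.coeFn_smul,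
    Pi.smul_apply, δ_apply]
  split_ifs <;> simp

noncomputable def P (n : ℕ) : H →L[ℂ] H := ∑ j ∈ Finset.range (n + 1), E j j
noncomputable def W (n : ℕ) : H →L[ℂ] H := ∑ j ∈ Finset.range (n + 1), E j (n - j)

lemma P_apply (n : ℕ) (x : H) (j : ℕ) : (P n x) j = if j ≤ n then x j else 0 := by
  rw [P, sum_apply, lp.coeFn_sum, Finset.sum_apply]
  simp only [E_apply]
  rw [Finset.sum_ite_eq]
  simp [Nat.lt_succ_iff]

lemma W_apply (n : ℕ) (x : H) (j : ℕ) : (W n x) j = if j ≤ n then x (n - j) else 0 := by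
  rw [W, sum_apply, lp.coeFn_sum, Finset.sum_apply]
  simp only [E_apply]
  rw [Finset.sum_ite_eq]
  simp [Nat.lt_succ_iff]

lemma P_δ (n k : ℕ) : P n (δ k) = if k ≤ n then δ k else 0 := by
  apply ext_H
  intro j
  rw [P_apply]
  by_cases hj : j ≤ n
  · rw [if_pos hj, δ_apply]
    by_cases hk : k ≤ n
    · rw [if_pos hk, δ_apply]
    · rw [if_neg hk, if_neg (by omega)]; simp
  · rw [if_neg hj]
    by_cases hk : k ≤ n
    · rw [if_pos hk, δ_apply, if_neg (by omega)]
    · rw [if_neg hk]; simp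

lemma W_δ (n k : ℕ) : W n (δ k) = if k ≤ n then δ (n - k) else 0 := by
  apply ext_H
  intro j
  rw [W_apply]
  by_cases hj : j ≤ n
  · rw [if_pos hj, δ_apply]
    by_cases hk : k ≤ n
    · rw [if_pos hk, δ_apply]
      congr 1
      apply propext
      omega
    · rw [if_neg hk, if_neg (by omega)]; simp
  · rw [if_neg hj]
    by_cases hk : k ≤ n
    · rw [if_pos hk, δ_apply, if_neg (by omega)]
    · rw [if_neg hk]; simp

lemma PP (n : ℕ) : P n ∘L P n = P n := by
  ext1 x; apply ext_H; intro j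
  rw [ContinuousLinearMap.comp_apply, P_apply, P_apply]; split_ifs <;> rfl

lemma PW (n : ℕ) : P n ∘L W n = W n := by
  ext1 x; apply ext_H; intro j
  rw [ContinuousLinearMap.comp_apply, P_apply, W_apply]; split_ifs <;> rfl

lemma WP (n : ℕ) : W n ∘L P n = W n := by
  ext1 x; apply ext_H; intro j
  rw [ContinuousLinearMap.comp_apply, W_apply, W_apply]
  split_ifs with h
  · rw [P_apply, if_pos (by omega)]
  · rfl

lemma WW (n : ℕ) : W n ∘L W n = P n := by
  ext1 x; apply ext_H; intro j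
  rw [ContinuousLinearMap.comp_apply, W_apply, P_apply]
  split_ifs with h
  · rw [W_apply, if_pos (by omega)]
    have h2 : n - (n - j) = j := by omega
    rw [h2]
  · rfl

lemma P_adj (n : ℕ) : adjoint (P n) = P n := by
  apply op_ext; intro k; apply ext_H; intro j
  rw [adj_entry, P_apply, P_apply, δ_apply, δ_apply]
  split_ifs <;> first | omega | simp

lemma W_adj (n : ℕ) : adjoint (W n) = W n := by
  apply op_ext; intro k; apply ext_H; intro j
  rw [adj_entry, W_apply, W_apply, δ_apply, δ_apply]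
  split_ifs <;> first | omega | simp

lemma PTP (n : ℕ) : P n ∘L T ∘L P n = P n ∘L T := by
  apply op_ext; intro k; apply ext_H; intro j
  simp only [ContinuousLinearMap.comp_apply]
  rw [P_apply, P_apply, P_δ]
  by_cases hk : k ≤ n
  · rw [if_pos hk]
  · rw [if_neg hk, T_δ]
    split_ifs with hj
    · rw [coeff_u_neg (by omega)]; simp
    · rfl

lemma WTW (n : ℕ) : W n ∘L T ∘L W n = P n ∘L adjoint T ∘L P n := by
  apply op_ext; intro k; apply ext_H; intro j
  simp only [ContinuousLinearMap.comp_apply]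
  rw [W_apply, P_apply, W_δ, P_δ]
  by_cases hk : k ≤ n
  · rw [if_pos hk, if_pos hk, T_δ, Tadj_δ]
    split_ifs with hj
    · congr 1; omega
    · rfl
  · rw [if_neg hk, if_neg hk]; simp

noncomputable def K : H →L[ℂ] H := ContinuousLinearMap.id ℂ H - T ∘L adjoint T

/-- the sequence -/
noncomputable def X (n : ℕ) : H →L[ℂ] H :=
  (P n - (P n ∘L T ∘L P n) ∘L (P n ∘L adjoint T ∘L P n)) ∘L
    (P n - (P n ∘L adjoint T ∘L P n) ∘L (P n ∘L T ∘L P n))

lemma first (n : ℕ) : P n - (P n ∘L T ∘L P n) ∘L (P n ∘L adjoint T ∘L P n) = P n ∘L K ∘L P n := by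
  have h1 : (P n ∘L T ∘L P n) ∘L (P n ∘L adjoint T ∘L P n)
      = (P n ∘L T ∘L (P n ∘L P n)) ∘L adjoint T ∘L P n := by
    simp only [ContinuousLinearMap.comp_assoc]
  rw [h1, PP, PTP, K]
  simp only [ContinuousLinearMap.comp_sub, ContinuousLinearMap.sub_comp,
    ContinuousLinearMap.id_comp, PP, ContinuousLinearMap.comp_assoc]

lemma WT (n : ℕ) : W n ∘L T = (P n ∘L adjoint T ∘L P n) ∘L W n := by
  have h1 : W n ∘L T = W n ∘L (P n ∘L T ∘L P n) := by
    rw [PTP, ← ContinuousLinearMap.comp_assoc, WP]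
  have h2 : W n ∘L (P n ∘L T ∘L P n) = (W n ∘L T) ∘L (W n ∘L W n) := by
    rw [WW, ← ContinuousLinearMap.comp_assoc, WP]
    simp only [ContinuousLinearMap.comp_assoc]
  rw [h1, h2]
  have h3 : (W n ∘L T) ∘L W n ∘L W n = (W n ∘L T ∘L W n) ∘L W n := by
    simp only [ContinuousLinearMap.comp_assoc]
  rw [h3, WTW]

lemma TW (n : ℕ) : adjoint T ∘L W n = W n ∘L (P n ∘L T ∘L P n) := by
  have h := congrArg adjoint (WT n)
  simp only [ContinuousLinearMap.adjoint_comp, W_adj, P_adj, ContinuousLinearMap.adjoint_adjoint] at h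
  rw [h]
  simp only [ContinuousLinearMap.comp_assoc]

lemma second (n : ℕ) : P n - (P n ∘L adjoint T ∘L P n) ∘L (P n ∘L T ∘L P n) = W n ∘L K ∘L W n := by
  have h1 : W n ∘L K ∘L W n = W n ∘L W n - (W n ∘L T) ∘L (adjoint T ∘L W n) := by
    rw [K]
    simp only [ContinuousLinearMap.comp_sub, ContinuousLinearMap.sub_comp,
      ContinuousLinearMap.id_comp, ContinuousLinearMap.comp_assoc]
  rw [h1, WW, WT, TW]
  congr 1
  have h2 : ((P n ∘L adjoint T ∘L P n) ∘L W n) ∘L W n ∘L P n ∘L T ∘L P n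
      = (P n ∘L adjoint T ∘L P n) ∘L (W n ∘L W n) ∘L P n ∘L T ∘L P n := by
    simp only [ContinuousLinearMap.comp_assoc]
  rw [h2, WW]
  simp only [← ContinuousLinearMap.comp_assoc]
  simp only [ContinuousLinearMap.comp_assoc]
  have h3 : P n ∘L P n ∘L T ∘L P n = P n ∘L T ∘L P n := by
    rw [← ContinuousLinearMap.comp_assoc, PP]
  rw [h3]
  rw [h3]

lemma X_eq (n : ℕ) : X n = (P n ∘L K ∘L P n) ∘L (W n ∘L K ∘L W n) := by
  rw [X, first, second]

lemma norm_P_le (n : ℕ) (x : H) : ‖P n x‖ ≤ ‖x‖ := by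
  have h1 := nsq (P n x)
  have h2 := nsq x
  have h3 : ‖P n x‖ ^ 2 ≤ ‖x‖ ^ 2 := by
    apply hasSum_le _ h1 h2
    intro j
    rw [P_apply]
    split_ifs
    · exact le_rfl
    · simp
  nlinarith [norm_nonneg (P n x), norm_nonneg x]

lemma norm_W (n : ℕ) (x : H) : ‖W n x‖ = ‖P n x‖ := by
  have h : ⟪W n x, W n x⟫_ℂ = ⟪P n x, P n x⟫_ℂ := by
    rw [← ContinuousLinearMap.adjoint_inner_right, W_adj, ← ContinuousLinearMap.adjoint_inner_right,
      P_adj, ← ContinuousLinearMap.comp_apply, ← ContinuousLinearMap.comp_apply, WW, PP]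
  rw [inner_self_eq_norm_sq_to_K, inner_self_eq_norm_sq_to_K] at h
  have h2 : ‖W n x‖ ^ 2 = ‖P n x‖ ^ 2 := by exact_mod_cast h
  nlinarith [norm_nonneg (W n x), norm_nonneg (P n x)]

lemma norm_W_le (n : ℕ) (x : H) : ‖W n x‖ ≤ ‖x‖ := (norm_W n x).trans_le (norm_P_le n x)

lemma K_adj : adjoint K = K := by
  rw [K, map_sub, ContinuousLinearMap.adjoint_comp, ContinuousLinearMap.adjoint_adjoint]
  congr 1
  apply op_ext; intro k; apply ext_H; intro j
  rw [adj_entry]
  simp [δ_apply, eq_comm]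

lemma norm_K_le (x : H) : ‖K x‖ ≤ ‖x‖ := by
  have h1 : ⟪K x, K x⟫_ℂ = ⟪x, x⟫_ℂ - ⟪adjoint T x, adjoint T x⟫_ℂ := by
    have hK : ∀ y : H, K y = y - T (adjoint T y) := fun y => rfl
    have h3 := ContinuousLinearMap.adjoint_inner_right T (adjoint T x) x
    have h4 := ContinuousLinearMap.adjoint_inner_left T (adjoint T x) x
    rw [hK, inner_sub_left, inner_sub_right, inner_sub_right, T_inner, ← h3, ← h4]
    ring
  have h2 : ‖K x‖ ^ 2 = ‖x‖ ^ 2 - ‖adjoint T x‖ ^ 2 := by
    rw [inner_self_eq_norm_sq_to_K, inner_self_eq_norm_sq_to_K, inner_self_eq_norm_sq_to_K] at h1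
    exact_mod_cast h1
  nlinarith [norm_nonneg (K x), norm_nonneg x, sq_nonneg ‖adjoint T x‖]

end Pool.Agent.R300.Toep
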