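import Pool.Agent.R300.ToepC

/-! The lower bound for the norms and the strong limits. -/

set_option autoImplicit false
open MeasureTheory Filter Topology Complex AddCircle
open scoped ComplexConjugate InnerProductSpace

namespace Pool.Agent.R300.Toep

open ContinuousLinearMap (adjoint)

lemma mem_geo {r : ℝ} (h0 : 0 ≤ r) (h1 : r < 1) : Memℓp (fun j : ℕ => ((r:ℂ) ^ j)) 2 := by
  apply memℓp_gen
  have : Summable (fun j : ℕ => (r ^ 2) ^ j) :=
    summable_geometric_of_lt_one (by positivity) (by nlinarith)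
  convert this using 1
  ext j
  simp [abs_of_nonneg h0, ← pow_mul, mul_comm]

noncomputable def geo {r : ℝ} (h0 : 0 ≤ r) (h1 : r < 1) : H := ⟨fun j => (r:ℂ) ^ j, mem_geo h0 h1⟩

lemma geo_apply {r : ℝ} (h0 : 0 ≤ r) (h1 : r < 1) (j : ℕ) : (geo h0 h1) j = (r:ℂ) ^ j := rfl

lemma norm_geo {r : ℝ} (h0 : 0 ≤ r) (h1 : r < 1) : ‖geo h0 h1‖ ^ 2 = (1 - r ^ 2)⁻¹ := by
  have h := nsq (geo h0 h1)
  have h2 := hasSum_geometric_of_lt_one (r := r ^ 2) (by positivity) (by nlinarith)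
  apply h.unique
  convert h2 using 1
  ext j
  rw [geo_apply]
  simp [abs_of_nonneg h0, ← pow_mul, mul_comm]

lemma Tadj_geo {r : ℝ} (h0 : 0 ≤ r) (h1 : r < 1) :
    adjoint T (geo h0 h1) = (S r) • geo h0 h1 := by
  apply ext_H
  intro j
  rw [← inner_δ, ContinuousLinearMap.adjoint_inner_right, lp.coeFn_smul, Pi.smul_apply, geo_apply]
  have h := lp.hasSum_inner (𝕜 := ℂ) (T (δ j)) (geo h0 h1)
  have hS := (hasSum_S (z := (r:ℂ)) (by simpa [abs_of_nonneg h0] using h1)).mul_left ((r:ℂ) ^ j)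
  have hinj : Function.Injective (fun n : ℕ => n + j) := fun a b h => by simpa using h
  have h3 : HasSum (fun i => ⟪(T (δ j)) i, (geo h0 h1) i⟫_ℂ) ((r:ℂ) ^ j * S r) := by
    rw [← hinj.hasSum_iff]
    · have he : ((fun i => ⟪(T (δ j)) i, (geo h0 h1) i⟫_ℂ) ∘ fun n : ℕ => n + j)
          = fun n : ℕ => (r:ℂ) ^ j * (a n * (r:ℂ) ^ n) := by
        funext n
        change ⟪(T (δ j)) (n + j), (geo h0 h1) (n + j)⟫_ℂ = _
        rw [T_δ, geo_apply, RCLike.inner_apply]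
        have : (((n + j : ℕ) : ℤ) - (j : ℤ)) = (n : ℤ) := by push_cast; ring
        rw [this, coeff_u_conj, coeff_u_nat, pow_add]
        ring
      rw [he]
      exact hS
    · intro i hi
      have : i < j := by
        by_contra hc
        exact hi ⟨i - j, by simp; omega⟩
      rw [T_δ, coeff_u_neg (by omega)]
      simp
  rw [h.unique h3, smul_eq_mul, mul_comm]

lemma inner_W_geo {r : ℝ} (h0 : 0 ≤ r) (h1 : r < 1) (n : ℕ) :
    ⟪geo h0 h1, W n (geo h0 h1)⟫_ℂ = ((n:ℂ) + 1) * (r:ℂ) ^ n := by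
  have h := lp.hasSum_inner (𝕜 := ℂ) (geo h0 h1) (W n (geo h0 h1))
  have h2 : HasSum (fun i => ⟪(geo h0 h1) i, (W n (geo h0 h1)) i⟫_ℂ)
      (∑ i ∈ Finset.range (n + 1), ⟪(geo h0 h1) i, (W n (geo h0 h1)) i⟫_ℂ) := by
    apply hasSum_sum_of_ne_finset_zero
    intro i hi
    rw [Finset.mem_range] at hi
    rw [W_apply, if_neg (by omega)]
    simp
  rw [h.unique h2]
  have h3 : ∀ i ∈ Finset.range (n + 1), ⟪(geo h0 h1) i, (W n (geo h0 h1)) i⟫_ℂ = (r:ℂ) ^ n := by
    intro i hi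
    rw [Finset.mem_range] at hi
    rw [W_apply, if_pos (by omega), geo_apply, geo_apply, RCLike.inner_apply, map_pow,
      Complex.conj_ofReal, ← pow_add]
    congr 1
    omega
  rw [Finset.sum_congr rfl h3, Finset.sum_const, Finset.card_range, nsmul_eq_mul]
  push_cast
  ring

lemma norm_sub_P_geo {r : ℝ} (h0 : 0 ≤ r) (h1 : r < 1) (n : ℕ) :
    ‖P n (geo h0 h1) - geo h0 h1‖ ^ 2 = (r ^ (n + 1)) ^ 2 * (1 - r ^ 2)⁻¹ := by
  have h := nsq (P n (geo h0 h1) - geo h0 h1)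
  have h2 := (hasSum_geometric_of_lt_one (r := r ^ 2) (by positivity) (by nlinarith)).mul_left
    ((r ^ (n + 1)) ^ 2)
  have hinj : Function.Injective (fun m : ℕ => m + (n + 1)) := fun a b h => by simpa using h
  have h3 : HasSum (fun j => ‖(P n (geo h0 h1) - geo h0 h1) j‖ ^ 2)
      ((r ^ (n + 1)) ^ 2 * (1 - r ^ 2)⁻¹) := by
    rw [← hinj.hasSum_iff]
    · have he : ((fun j => ‖(P n (geo h0 h1) - geo h0 h1) j‖ ^ 2) ∘ fun m : ℕ => m + (n + 1))
          = fun m : ℕ => (r ^ (n + 1)) ^ 2 * (r ^ 2) ^ m := by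
        funext m
        change ‖(P n (geo h0 h1) - geo h0 h1) (m + (n + 1))‖ ^ 2 = _
        rw [lp.coeFn_sub, Pi.sub_apply, P_apply, if_neg (by omega), geo_apply, zero_sub, norm_neg,
          norm_pow, Complex.norm_real, Real.norm_eq_abs, abs_of_nonneg h0]
        ring
      rw [he]
      exact h2
    · intro i hi
      have : i ≤ n := by
        by_contra hc
        exact hi ⟨i - (n + 1), by simp; omega⟩
      rw [lp.coeFn_sub, Pi.sub_apply, P_apply, if_pos this]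
      simp
  exact h.unique h3

/-- the lower bound -/
lemma lower {r : ℝ} (h0 : 0 ≤ r) (h1 : r < 1) (n : ℕ) :
    (1 - r ^ 2) * ((n:ℝ) + 1) * r ^ n - 2 * (r ^ (n + 1) + ‖S r‖) ≤ ‖X n‖ := by
  have hr : 0 < 1 - r ^ 2 := by nlinarith
  set c : ℝ := Real.sqrt (1 - r ^ 2) with hc
  have hc0 : 0 ≤ c := Real.sqrt_nonneg _
  have hc2 : c ^ 2 = 1 - r ^ 2 := Real.sq_sqrt hr.le
  set x : H := (c : ℂ) • geo h0 h1 with hx
  have hnx : ‖x‖ = 1 := by
    have : ‖x‖ ^ 2 = 1 := by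
      rw [hx, norm_smul, mul_pow, norm_geo, Complex.norm_real, Real.norm_eq_abs, sq_abs, hc2]
      field_simp
    nlinarith [norm_nonneg x]
  have hPx : ‖P n x - x‖ = r ^ (n + 1) := by
    have h2 : ‖P n x - x‖ ^ 2 = (r ^ (n + 1)) ^ 2 := by
      rw [hx, map_smul, ← smul_sub, norm_smul, mul_pow, norm_sub_P_geo, Complex.norm_real,
        Real.norm_eq_abs, sq_abs, hc2]
      field_simp
    have h3 : 0 ≤ r ^ (n + 1) := by positivity
    nlinarith [norm_nonneg (P n x - x)]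
  have hTx : ‖adjoint T x‖ = ‖S r‖ := by
    rw [hx, map_smul, Tadj_geo, smul_comm, norm_smul, ← hx, hnx, mul_one]
  have hWx : ‖⟪x, W n x⟫_ℂ‖ = (1 - r ^ 2) * ((n:ℝ) + 1) * r ^ n := by
    rw [hx, map_smul, inner_smul_left, inner_smul_right, inner_W_geo, norm_mul, norm_mul, norm_mul,
      norm_pow, RCLike.norm_conj, Complex.norm_real, Complex.norm_real, Real.norm_eq_abs,
      Real.norm_eq_abs, abs_of_nonneg h0, abs_of_nonneg hc0]
    have h3 : ‖((n:ℂ) + 1)‖ = (n:ℝ) + 1 := by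
      have : ((n:ℂ) + 1) = (((n:ℝ) + 1 : ℝ) : ℂ) := by push_cast; ring
      rw [this, Complex.norm_real, Real.norm_eq_abs, abs_of_nonneg (by positivity)]
    rw [h3, ← hc2]
    ring
  set y : H := K (P n x) with hy
  have hyn : ‖y‖ ≤ 1 := by
    calc ‖y‖ ≤ ‖P n x‖ := norm_K_le _
      _ ≤ ‖x‖ := norm_P_le _ _
      _ = 1 := hnx
  have hyx : ‖y - x‖ ≤ r ^ (n + 1) + ‖S r‖ := by
    have h4 : y - x = K (P n x - x) - T (adjoint T x) := by
      have : K x = x - T (adjoint T x) := rfl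
      rw [map_sub, this, hy]; abel
    rw [h4]
    calc ‖K (P n x - x) - T (adjoint T x)‖ ≤ ‖K (P n x - x)‖ + ‖T (adjoint T x)‖ := norm_sub_le _ _
      _ ≤ ‖P n x - x‖ + ‖adjoint T x‖ := add_le_add (norm_K_le _) (norm_T _).le
      _ = _ := by rw [hPx, hTx]
  have h5 : ⟪x, X n (W n x)⟫_ℂ = ⟪y, W n y⟫_ℂ := by
    have h6 : X n (W n x) = P n (K (P n (W n (K (W n (W n x)))))) := by
      rw [X_eq]; rfl
    have h7 : W n (W n x) = P n x := by
      rw [← ContinuousLinearMap.comp_apply, WW]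
    have h8 : P n (W n (K (P n x))) = W n (K (P n x)) := by
      rw [← ContinuousLinearMap.comp_apply, PW]
    rw [h6, h7, h8, hy]
    rw [← ContinuousLinearMap.adjoint_inner_left, P_adj, ← ContinuousLinearMap.adjoint_inner_left,
      K_adj]
  have h9 : ‖⟪x, W n x⟫_ℂ‖ - 2 * ‖y - x‖ ≤ ‖⟪y, W n y⟫_ℂ‖ := by
    have e1 : ⟪x, W n x⟫_ℂ = ⟪y, W n y⟫_ℂ - ⟪y, W n (y - x)⟫_ℂ - ⟪y - x, W n x⟫_ℂ := by
      rw [map_sub, inner_sub_right, inner_sub_left]; ring
    have e2 : ‖⟪y, W n (y - x)⟫_ℂ‖ ≤ ‖y - x‖ := by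
      calc ‖⟪y, W n (y - x)⟫_ℂ‖ ≤ ‖y‖ * ‖W n (y - x)‖ := norm_inner_le_norm _ _
        _ ≤ 1 * ‖y - x‖ := mul_le_mul hyn (norm_W_le _ _) (norm_nonneg _) zero_le_one
        _ = _ := one_mul _
    have e3 : ‖⟪y - x, W n x⟫_ℂ‖ ≤ ‖y - x‖ := by
      calc ‖⟪y - x, W n x⟫_ℂ‖ ≤ ‖y - x‖ * ‖W n x‖ := norm_inner_le_norm _ _
        _ ≤ ‖y - x‖ * 1 := mul_le_mul_of_nonneg_left ((norm_W_le _ _).trans hnx.le) (norm_nonneg _)
        _ = _ := mul_one _
    have e4 : ‖⟪x, W n x⟫_ℂ‖ ≤ ‖⟪y, W n y⟫_ℂ‖ + ‖⟪y, W n (y - x)⟫_ℂ‖ + ‖⟪y - x, W n x⟫_ℂ‖ := by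
      rw [e1]
      exact (norm_sub_le _ _).trans (add_le_add_left (norm_sub_le _ _) _)
    linarith
  have h10 : ‖⟪x, X n (W n x)⟫_ℂ‖ ≤ ‖X n‖ := by
    calc ‖⟪x, X n (W n x)⟫_ℂ‖ ≤ ‖x‖ * ‖X n (W n x)‖ := norm_inner_le_norm _ _
      _ ≤ 1 * (‖X n‖ * ‖W n x‖) := by
          rw [hnx]; exact mul_le_mul_of_nonneg_left ((X n).le_opNorm _) zero_le_one
      _ ≤ 1 * (‖X n‖ * 1) := by
          gcongr
          exact (norm_W_le _ _).trans hnx.le
      _ = _ := by ring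
  rw [h5] at h10
  rw [hWx] at h9
  linarith

lemma lower' {n : ℕ} (hn : 11 ≤ n) : Real.exp (-2) / 2 ≤ ‖X n‖ := by
  have hn' : (11:ℝ) ≤ n := by exact_mod_cast hn
  have hN : (0:ℝ) < (n:ℝ) + 1 := by positivity
  set r : ℝ := Real.exp (-(2 / ((n:ℝ) + 1))) with hr
  have hpos : 0 < 2 / ((n:ℝ) + 1) := by positivity
  have h0 : 0 ≤ r := (Real.exp_pos _).le
  have h1 : r < 1 := by rw [hr, Real.exp_lt_one_iff]; linarith
  have h := lower h0 h1 n
  have hp : r ^ (n + 1) = Real.exp (-2) := by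
    rw [hr, ← Real.exp_nat_mul]
    congr 1
    push_cast
    field_simp
  have hp' : Real.exp (-2) ≤ r ^ n := by
    rw [← hp]; exact pow_le_pow_of_le_one h0 h1.le (Nat.le_succ n)
  have h2 : 3 ≤ (1 - r ^ 2) * ((n:ℝ) + 1) := by
    have e1 : r ^ 2 = Real.exp (-(4 / ((n:ℝ) + 1))) := by
      rw [hr, ← Real.exp_nat_mul]
      congr 1
      push_cast
      ring
    have e2 : r ^ 2 ≤ 1 / (1 + 4 / ((n:ℝ) + 1)) := by
      rw [e1, Real.exp_neg, ← one_div]
      apply one_div_le_one_div_of_le (by positivity)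
      linarith [Real.add_one_le_exp (4 / ((n:ℝ) + 1))]
    have e3 : 3 ≤ (1 - 1 / (1 + 4 / ((n:ℝ) + 1))) * ((n:ℝ) + 1) := by
      have : (1 - 1 / (1 + 4 / ((n:ℝ) + 1))) * ((n:ℝ) + 1) = 4 * ((n:ℝ) + 1) / ((n:ℝ) + 5) := by
        field_simp
        ring
      rw [this, le_div_iff₀ (by positivity)]
      linarith
    nlinarith
  have hS : ‖S r‖ ≤ Real.exp (-2) / 4 := by
    have e1 : ‖S r‖ = Real.exp (-((1 + r) / (1 - r))) := by
      rw [norm_S]
      congr 1
      have : ‖(r:ℂ) - 1‖ = 1 - r := by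
        rw [← Complex.ofReal_one, ← Complex.ofReal_sub, Complex.norm_real, Real.norm_eq_abs,
          abs_of_nonpos (by linarith)]
        ring
      rw [this, Complex.norm_real, Real.norm_eq_abs, abs_of_nonneg h0]
      have : 1 - r ≠ 0 := by linarith
      field_simp
      ring
    have e2 : 1 - r ≤ 2 / ((n:ℝ) + 1) := by
      have := Real.add_one_le_exp (-(2 / ((n:ℝ) + 1)))
      rw [← hr] at this
      linarith
    have e3 : 6 ≤ (1 + r) / (1 - r) := by
      rw [le_div_iff₀ (by linarith)]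
      have e4 : 2 / ((n:ℝ) + 1) ≤ 1 / 6 := by
        rw [div_le_div_iff₀ hN (by norm_num)]
        linarith
      linarith
    have e5 : Real.exp (-((1 + r) / (1 - r))) ≤ Real.exp (-2) * Real.exp (-4) := by
      rw [← Real.exp_add]
      apply Real.exp_le_exp.2
      linarith
    have e6 : Real.exp (-4) ≤ 1 / 4 := by
      rw [Real.exp_neg, ← one_div]
      apply one_div_le_one_div_of_le (by norm_num)
      linarith [Real.add_one_le_exp (4:ℝ)]
    rw [e1]
    calc _ ≤ _ := e5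
      _ ≤ Real.exp (-2) * (1 / 4) := mul_le_mul_of_nonneg_left e6 (Real.exp_pos _).le
      _ = _ := by ring
  rw [hp] at h
  have h3 : 3 * Real.exp (-2) ≤ (1 - r ^ 2) * ((n:ℝ) + 1) * r ^ n := by
    have := Real.exp_pos (-2)
    calc 3 * Real.exp (-2) ≤ ((1 - r ^ 2) * ((n:ℝ) + 1)) * Real.exp (-2) :=
          mul_le_mul_of_nonneg_right h2 this.le
      _ ≤ ((1 - r ^ 2) * ((n:ℝ) + 1)) * r ^ n :=
          mul_le_mul_of_nonneg_left hp' (by linarith)
  linarith [Real.exp_pos (-2)]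

/-! ### strong limits -/

lemma P_tendsto (x : H) : Tendsto (fun n => P n x) atTop (𝓝 x) := by
  have h := (lp.hasSum_single (p := 2) (by simp) x).tendsto_sum_nat
  have h2 := h.comp (tendsto_add_atTop_nat 1)
  refine h2.congr fun n => ?_
  apply ext_H
  intro j
  rw [P_apply, Function.comp, lp.coeFn_sum, Finset.sum_apply]
  simp only [lp.single_apply]
  by_cases hj : j ≤ n
  · rw [if_pos hj, Finset.sum_eq_single j]
    · simp
    · intro b _ hb
      simp [Pi.single_apply, Ne.symm hb]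
    · intro h; exfalso; apply h; rw [Finset.mem_range]; omega
  · rw [if_neg hj]
    apply Finset.sum_eq_zero
    intro b hb
    rw [Finset.mem_range] at hb
    have : j ≠ b := by omega
    simp [Pi.single_apply, this]

lemma P_tendsto' {x : ℕ → H} {y : H} (h : Tendsto x atTop (𝓝 y)) :
    Tendsto (fun n => P n (x n)) atTop (𝓝 y) := by
  have h1 : Tendsto (fun n => P n (x n - y)) atTop (𝓝 0) := by
    apply squeeze_zero_norm (a := fun n => ‖x n - y‖) (fun n => norm_P_le _ _)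
    have := (h.sub_const y).norm
    simpa using this
  have h2 := h1.add (P_tendsto y)
  rw [zero_add] at h2
  refine h2.congr fun n => ?_
  rw [map_sub]; abel

lemma PAP {x : ℕ → H} {y : H} (h : Tendsto x atTop (𝓝 y)) (A : H →L[ℂ] H) :
    Tendsto (fun n => (P n ∘L A ∘L P n) (x n)) atTop (𝓝 (A y)) :=
  P_tendsto' ((A.continuous.tendsto _).comp (P_tendsto' h))

lemma WKW {x : ℕ → H} {y : H} (h : Tendsto x atTop (𝓝 y)) :
    Tendsto (fun n => (W n ∘L K ∘L W n) (x n)) atTop (𝓝 0) := by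
  have h1 := (P_tendsto' h).sub (PAP (PAP h T) (adjoint T))
  have h2 : adjoint T (T y) = y := by
    rw [← ContinuousLinearMap.comp_apply, TT]; rfl
  rw [h2, sub_self] at h1
  refine h1.congr fun n => ?_
  rw [← second]
  rfl

lemma X_tendsto (x : H) : Tendsto (fun n => X n x) atTop (𝓝 0) := by
  have h := PAP (WKW (tendsto_const_nhds (x := x))) K
  rw [map_zero] at h
  refine h.congr fun n => ?_
  rw [X_eq]; rfl

lemma WXW_tendsto (x : H) : Tendsto (fun n => (W n ∘L X n ∘L W n) x) atTop (𝓝 0) := by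
  have h := WKW (PAP (tendsto_const_nhds (x := x)) K)
  refine h.congr fun n => ?_
  rw [X_eq]
  have h1 : W n ∘L ((P n ∘L K ∘L P n) ∘L W n ∘L K ∘L W n) ∘L W n
      = (W n ∘L P n) ∘L K ∘L (P n ∘L W n) ∘L K ∘L (W n ∘L W n) := by
    simp only [ContinuousLinearMap.comp_assoc]
  have h2 : (W n ∘L K ∘L W n) ∘L (P n ∘L K ∘L P n) = W n ∘L K ∘L (W n ∘L P n) ∘L K ∘L P n := by
    simp only [ContinuousLinearMap.comp_assoc]
  rw [← ContinuousLinearMap.comp_apply, h1, h2, WP, PW, WW]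

lemma W_weak (x y : H) : Tendsto (fun n => ⟪y, W n x⟫_ℂ) atTop (𝓝 0) := by
  have hx0 : Tendsto (fun n => x n) atTop (𝓝 0) := by
    have h := (nsq x).summable.tendsto_atTop_zero
    have h2 : Tendsto (fun n => ‖x n‖) atTop (𝓝 0) := by
      have := h.sqrt
      simpa [Real.sqrt_sq] using this
    exact tendsto_zero_iff_norm_tendsto_zero.2 h2
  have hδ : ∀ j, Tendsto (fun n => ⟪δ j, W n x⟫_ℂ) atTop (𝓝 0) := by
    intro j
    have h1 : Tendsto (fun n => x (n - j)) atTop (𝓝 0) := hx0.comp (tendsto_sub_atTop_nat j)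
    refine h1.congr' ?_
    filter_upwards [eventually_ge_atTop j] with n hn
    rw [inner_δ, W_apply, if_pos hn]
  have hP : ∀ m, Tendsto (fun n => ⟪P m y, W n x⟫_ℂ) atTop (𝓝 0) := by
    intro m
    have h1 : P m y = ∑ j ∈ Finset.range (m + 1), (y j) • δ j := by
      rw [P, sum_apply]
      apply Finset.sum_congr rfl
      intro j _
      rw [E, ContinuousLinearMap.smulRight_apply, innerSL_apply_apply, inner_δ]
    rw [h1]
    simp only [sum_inner, inner_smul_left]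
    have h2 : Tendsto (fun n => ∑ j ∈ Finset.range (m + 1), conj (y j) * ⟪δ j, W n x⟫_ℂ) atTop
        (𝓝 (∑ j ∈ Finset.range (m + 1), conj (y j) * 0)) :=
      tendsto_finset_sum _ fun j _ => (hδ j).const_mul _
    simpa using h2
  rw [Metric.tendsto_atTop]
  intro ε hε
  have hy := P_tendsto y
  have h3 : Tendsto (fun m => ‖y - P m y‖ * ‖x‖) atTop (𝓝 0) := by
    have := ((tendsto_const_nhds (x := y)).sub hy).norm.mul_const ‖x‖
    simpa using this
  obtain ⟨m, hm⟩ := (h3.eventually (gt_mem_nhds (half_pos hε))).exists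
  obtain ⟨N, hN⟩ := (Metric.tendsto_atTop.1 (hP m)) (ε / 2) (half_pos hε)
  refine ⟨N, fun n hn => ?_⟩
  have h4 := hN n hn
  rw [dist_zero_right] at h4 ⊢
  have h5 : ⟪y, W n x⟫_ℂ = ⟪P m y, W n x⟫_ℂ + ⟪y - P m y, W n x⟫_ℂ := by
    rw [inner_sub_left]; ring
  rw [h5]
  calc _ ≤ ‖⟪P m y, W n x⟫_ℂ‖ + ‖⟪y - P m y, W n x⟫_ℂ‖ := norm_add_le _ _
    _ ≤ ‖⟪P m y, W n x⟫_ℂ‖ + ‖y - P m y‖ * ‖x‖ := by
        gcongr
        exact (norm_inner_le_norm _ _).trans
          (mul_le_mul_of_nonneg_left (norm_W_le _ _) (norm_nonneg _))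
    _ < ε := by linarith

lemma compact_W {B : H →L[ℂ] H} (hB : IsCompactOperator B) (x : H) :
    Tendsto (fun n => W n (B (W n x))) atTop (𝓝 0) := by
  have h1 : Tendsto (fun n => B (W n x)) atTop (𝓝 0) := by
    apply tendsto_of_subseq_tendsto
    intro ns hns
    have hc := hB.isCompact_closure_image_closedBall ‖x‖
    have hmem : ∀ k, B (W (ns k) x) ∈ closure (B '' Metric.closedBall 0 ‖x‖) := fun k =>
      subset_closure ⟨W (ns k) x, by simpa using norm_W_le _ _, rfl⟩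
    obtain ⟨w, _, ms, hms, hw⟩ := hc.tendsto_subseq hmem
    refine ⟨ms, ?_⟩
    have hw0 : w = 0 := by
      apply ext_inner_left ℂ
      intro y
      rw [inner_zero_right]
      have h2 : Tendsto (fun k => ⟪y, B (W (ns (ms k)) x)⟫_ℂ) atTop (𝓝 ⟪y, w⟫_ℂ) :=
        (tendsto_const_nhds (x := y)).inner hw
      have h3 : Tendsto (fun k => ⟪y, B (W (ns (ms k)) x)⟫_ℂ) atTop (𝓝 0) := by
        have h4 := (W_weak x (adjoint B y)).comp (hns.comp hms.tendsto_atTop)
        refine h4.congr fun k => ?_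
        simp only [Function.comp]
        rw [ContinuousLinearMap.adjoint_inner_left]
      exact tendsto_nhds_unique h2 h3
    rw [← hw0]
    exact hw
  apply squeeze_zero_norm (a := fun n => ‖B (W n x)‖) (fun n => norm_W_le _ _)
  simpa using h1.norm

end Pool.Agent.R300.Toep
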