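import Pool.Agent.R300.ToepD

/-! The sequence `X` lies in the algebra generated by the finite sections and is not of the
form `P n * K * P n + W n * K' * W n + C n`. -/

set_option autoImplicit false
open MeasureTheory Filter Topology Complex AddCircle
open scoped ComplexConjugate InnerProductSpace

namespace Pool.Agent.R300.Toep

open ContinuousLinearMap (adjoint)

lemma vol_eq : (volume : Measure (AddCircle (1:ℝ))) = haarAddCircle := by
  rw [volume_eq_smul_haarAddCircle]; simp

lemma memtop {f : AddCircle (1:ℝ) → ℂ} (hf : Measurable f) (hb : ∀ t, ‖f t‖ ≤ 1) :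
    MemLp f ⊤ (volume : Measure (AddCircle (1:ℝ))) :=
  memLp_top_of_bound hf.aestronglyMeasurable 1 (Eventually.of_forall hb)

lemma coeff_toLp {f : AddCircle (1:ℝ) → ℂ} (h : MemLp f ⊤ (volume : Measure (AddCircle (1:ℝ))))
    (n : ℤ) : fourierCoeff (⇑(h.toLp f) : AddCircle (1:ℝ) → ℂ) n = fourierCoeff f n := by
  unfold fourierCoeff
  have h2 := h.coeFn_toLp
  rw [← vol_eq]
  apply integral_congr_ae
  filter_upwards [h2] with t ht
  rw [ht]

/-- the generators -/
def Gen : Set (ℕ → (lp (fun _ : ℕ => ℂ) 2 →L[ℂ] lp (fun _ : ℕ => ℂ) 2)) :=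
  {G : ℕ → (lp (fun _ : ℕ => ℂ) 2 →L[ℂ] lp (fun _ : ℕ => ℂ) 2) |
              ∃ a : Lp ℂ ⊤ (volume : Measure (AddCircle (1 : ℝ))),
              ∃ T : lp (fun _ : ℕ => ℂ) 2 →L[ℂ] lp (fun _ : ℕ => ℂ) 2,
                (∀ j k : ℕ, (T (lp.single 2 k (1 : ℂ) : lp (fun _ : ℕ => ℂ) 2)) j
                    = fourierCoeff (⇑a : AddCircle (1 : ℝ) → ℂ) ((j : ℤ) - (k : ℤ))) ∧
                ∀ n, G n = P n * T * P n}

lemma coeff_one (m : ℤ) : fourierCoeff (fun _ : AddCircle (1:ℝ) => (1:ℂ)) m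
    = if m = 0 then 1 else 0 := by
  have h1 : ⟪fourierLp (T := (1:ℝ)) 2 m, fourierLp 2 0⟫_ℂ
      = fourierCoeff (fun _ : AddCircle (1:ℝ) => (1:ℂ)) m := by
    rw [L2.inner_def, fourierCoeff]
    apply integral_congr_ae
    filter_upwards [coeFn_fourierLp (T := (1:ℝ)) 2 m, coeFn_fourierLp (T := (1:ℝ)) 2 0] with t h1 h2
    rw [h1, h2]
    simp only [RCLike.inner_apply, smul_eq_mul]
    rw [fourier_neg]
    simp
  rw [← h1, orthonormal_iff_ite.1 orthonormal_fourier]

lemma coeff_conj (m : ℤ) : fourierCoeff (fun t : AddCircle (1:ℝ) => conj (u t)) m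
    = fourierCoeff u (-m) := by
  rw [← coeff_u_conj (-m), fourierCoeff, fourierCoeff, ← integral_conj]
  apply integral_congr_ae
  filter_upwards with t
  simp only [smul_eq_mul, map_mul, neg_neg]
  rw [← fourier_neg]

lemma G_one : (fun n => P n) ∈ Gen := by
  refine ⟨(memtop (f := fun _ => 1) measurable_const (by simp)).toLp _,
    ContinuousLinearMap.id ℂ H, fun j k => ?_, fun n => ?_⟩
  · rw [coeff_toLp, coeff_one]
    have h := δ_apply k j
    rw [δ] at h
    simp only [ContinuousLinearMap.id_apply]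
    rw [h]
    congr 1
    apply propext
    omega
  · show P n = P n ∘L ContinuousLinearMap.id ℂ H ∘L P n
    rw [ContinuousLinearMap.id_comp, PP]

lemma G_T : (fun n => P n ∘L T ∘L P n) ∈ Gen := by
  refine ⟨(memtop (f := u) meas_u (fun t => (norm_u t).le)).toLp _, T, fun j k => ?_, fun n => ?_⟩
  · rw [coeff_toLp]
    exact T_δ j k
  · rfl

lemma G_Tadj : (fun n => P n ∘L adjoint T ∘L P n) ∈ Gen := by
  have hm : Measurable (fun t : AddCircle (1:ℝ) => conj (u t)) :=
    Complex.continuous_conj.measurable.comp meas_u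
  refine ⟨(memtop hm (fun t => by rw [RCLike.norm_conj]; exact (norm_u t).le)).toLp _, adjoint T,
    fun j k => ?_, fun n => ?_⟩
  · rw [coeff_toLp, coeff_conj]
    have h := Tadj_δ j k
    rw [δ] at h
    rw [h]
    congr 1
    ring
  · rfl

lemma X_mem : X ∈ NonUnitalAlgebra.adjoin ℂ Gen := by
  have h1 := NonUnitalAlgebra.subset_adjoin ℂ G_one
  have h2 := NonUnitalAlgebra.subset_adjoin ℂ G_T
  have h3 := NonUnitalAlgebra.subset_adjoin ℂ G_Tadj
  have h4 := mul_mem (sub_mem h1 (mul_mem h2 h3)) (sub_mem h1 (mul_mem h3 h2))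
  exact h4

lemma isCompact_zero' : IsCompactOperator (0 : H →L[ℂ] H) := isCompactOperator_zero

/-- no representation -/
lemma no_rep (K₁ K₂ : H →L[ℂ] H) (h1 : IsCompactOperator K₁) (h2 : IsCompactOperator K₂)
    (C : ℕ → (H →L[ℂ] H)) (hC : Tendsto (fun n => ‖C n‖) atTop (𝓝 0))
    (hX : ∀ n, X n = P n * K₁ * P n + W n * K₂ * W n + C n) : False := by
  have hCx : ∀ z : ℕ → H, ∀ M : ℝ, (∀ n, ‖z n‖ ≤ M) → Tendsto (fun n => C n (z n)) atTop (𝓝 0) := by
    intro z M hz
    apply squeeze_zero_norm (a := fun n => ‖C n‖ * M) (fun n => ?_)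
    · simpa using hC.mul_const M
    · exact ((C n).le_opNorm _).trans (mul_le_mul_of_nonneg_left (hz n) (norm_nonneg _))
  have hK1 : K₁ = 0 := by
    ext1 x
    have e1 := X_tendsto x
    have e2 : Tendsto (fun n => X n x) atTop (𝓝 (K₁ x + 0 + 0)) := by
      have := ((PAP (tendsto_const_nhds (x := x)) K₁).add (compact_W h2 x)).add
        (hCx (fun _ => x) ‖x‖ (fun _ => le_rfl))
      refine this.congr fun n => ?_
      rw [hX n]; rfl
    rw [add_zero, add_zero] at e2
    exact tendsto_nhds_unique e2 e1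
  have hK2 : K₂ = 0 := by
    ext1 x
    have e1 := WXW_tendsto x
    have e2 : Tendsto (fun n => (W n ∘L X n ∘L W n) x) atTop (𝓝 (K₂ x + 0)) := by
      have h5 : Tendsto (fun n => W n (C n (W n x))) atTop (𝓝 0) := by
        have := hCx (fun n => W n x) ‖x‖ (fun n => norm_W_le _ _)
        apply squeeze_zero_norm (a := fun n => ‖C n (W n x)‖) (fun n => norm_W_le _ _)
        simpa using this.norm
      have := (PAP (tendsto_const_nhds (x := x)) K₂).add h5
      refine this.congr fun n => ?_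
      rw [hX n, hK1]
      have h6 : (W n ∘L (P n * 0 * P n + W n * K₂ * W n + C n) ∘L W n) x
          = (W n ∘L W n) (K₂ ((W n ∘L W n) x)) + W n (C n (W n x)) := by
        simp only [mul_zero, zero_mul, zero_add, ContinuousLinearMap.comp_apply,
          add_apply, map_add]
        rfl
      rw [h6, WW]
      rfl
    rw [add_zero] at e2
    exact tendsto_nhds_unique e2 e1
  have h3 : ∀ n, X n = C n := by
    intro n
    rw [hX n, hK1, hK2]
    simp
  have h4 : ∀ᶠ n in atTop, ‖C n‖ < Real.exp (-2) / 2 :=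
    hC.eventually (gt_mem_nhds (by positivity))
  obtain ⟨n, hn, hn2⟩ := (h4.and (eventually_ge_atTop 11)).exists
  have := lower' hn2
  rw [h3 n] at this
  linarith

end Pool.Agent.R300.Toep
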